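import Pool.Agent.H33.Solid.Final

/-!
Solidity of the shifted hexagonal circle packings `P_t` (MP_972875_co, Q1, L. Fejes Toth).

For every `0 < t ≤ 10⁻⁶` the packing `P_t` is solid.  The proof is a calibration argument: an
antisymmetric function on short edges, periodic with respect to the lower lattice, bounds from below
the area defect of every triangle of a Delaunay type triangulation, and all triangles of `P_t` are
tight for it.
-/

namespace Pool.Agent.Results.MP_972875_co.Solidity

open H33Solid

theorem result : ∀ t : ℝ, 0 < t → t ≤ 1 / 10 ^ 6 → IsPacking (P t) ∧ Solid (P t) :=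
  fun _ h0 h1 => ⟨(strong h0 h1).1, solid h0 h1⟩

end Pool.Agent.Results.MP_972875_co.Solidity
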